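import Mathlib

namespace Pool.Agent.Results.MP_f51a03_co.Counter

open SimpleGraph

/-- `G` is a total weak unit interval graph: for every labelling of the edges by near (`true`)
and far (`false`) there are `I : V → ℝ` and `t > 0` such that an edge `uv` is near
exactly when `|I u - I v| ≤ t`. -/
def TotalWUI {V : Type} (G : SimpleGraph V) : Prop :=
  ∀ l : G.edgeSet → Bool, ∃ (I : V → ℝ) (t : ℝ), 0 < t ∧
    ∀ (u v : V) (h : G.Adj u v), |I u - I v| ≤ t ↔ l ⟨s(u, v), h⟩ = true

/-- The eleven triples 456, 125, 035, 236, 026, 016, 136, 134, 234, 014, 024 in base 8. -/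
def trN (k i : ℕ) : ℕ := 337359337824877379380096181164 / 8 ^ (3 * k + i) % 8

abbrev W := Fin 7 ⊕ Fin 11

def adjB : W → W → Bool
  | .inl u, .inl v => (u.val == 0 && v.val == 1) || (u.val == 1 && v.val == 0)
  | .inl u, .inr k => trN k 0 == u.val || trN k 1 == u.val || trN k 2 == u.val
  | .inr k, .inl u => trN k 0 == u.val || trN k 1 == u.val || trN k 2 == u.val
  | .inr _, .inr _ => false

def G0 : SimpleGraph W where
  Adj u v := adjB u v = true
  symm := ⟨by decide +kernel⟩
  loopless := ⟨by decide +kernel⟩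

instance : DecidableRel G0.Adj := fun u v => inferInstanceAs (Decidable (adjB u v = true))

def pos (o v : ℕ) : ℕ := o / 8 ^ v % 8

def ext (a b c : ℕ) : Bool := (decide (a < b) && decide (a < c)) || (decide (b < a) && decide (c < a))

def good (o k p : ℕ) : Bool :=
  if p = 0 then ext (pos o (trN k 0)) (pos o (trN k 1)) (pos o (trN k 2))
  else if p = 1 then ext (pos o (trN k 1)) (pos o (trN k 0)) (pos o (trN k 2))
  else ext (pos o (trN k 2)) (pos o (trN k 0)) (pos o (trN k 1))

def cover (o : ℕ) : ℕ → ℕ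
  | 0 => if pos o 0 = pos o 1 then 0 else 1
  | k + 1 => (if good o k 0 = true then cover o k else 0) |||
      ((if good o k 1 = true then cover o k <<< (3 ^ k) else 0) |||
        (if good o k 2 = true then cover o k <<< (2 * 3 ^ k) else 0))

def total : List ℕ → ℕ
  | [] => 0
  | o :: l => cover o 11 ||| total l

def ords : List ℕ := [
   1754760, 662872, 467243, 1223880, 473256, 428442, 1116787, 1059737, 52395, 88473, 144501,
   1116017, 1589931, 646408, 1246889, 289002, 1426320, 542577, 1706649, 961632, 415282, 1508003,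
   1054389, 1003681, 1394225, 1447152, 1521681, 551523, 348467, 1583715, 1652840, 276661, 742945,
   417963, 1107792, 1712235, 473424, 1059569, 991340, 1750112, 875553, 1448986, 419160, 213675,
   656117, 1073835, 1247057, 219226, 80241, 793772, 1351987, 1417633, 1217587, 420560, 408114,
   1591121, 171234, 1434384, 1070769, 822178, 705264, 1326178, 78645, 541611, 877100, 1677648,
   289114, 658161, 1713705, 215761, 644000, 1607914, 1358224, 989968, 174321, 1316084, 1651244,
   548121, 152474, 809074, 976913, 1595041, 985698, 1119797, 1121512, 675955, 1319843, 960624,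
   629160, 117929, 1628186, 629804, 1072281, 559923, 1513624, 649320, 154714, 201964, 1615656,
   1705809, 283955, 1446067, 878920, 1056090, 438452, 1004640, 347480, 803957, 1714713, 1519777,
   1447320, 284340, 989226, 1095024, 975632, 1682184, 214697, 1245930, 1325170, 109676, 1658979,
   1256024, 1642732, 48034, 739144, 287980, 1412194, 1419376, 579488, 682521, 350000, 1520162,
   1692936, 451619, 921781, 543473, 1418032, 920745, 218897, 1058729, 1519889, 1388660, 689780,
   1222536, 1355032, 795445, 1116913, 1149841, 473634, 1141273, 707672, 1345715, 436632, 84595,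
   581987, 1508633, 107380, 203427, 809361, 351267, 559020, 1257578, 1107176, 180978, 797300,
   1336419, 736008, 874608, 383376, 1620640, 190113, 1096746, 727272, 1353968, 1450547, 1712984,
   60130, 1004066, 954786, 793898, 1738338, 50869, 1378209, 182161, 118097, 1592017, 415408,
   839860, 712985, 1435728, 146097, 115381, 543641, 1114869, 1064105, 277802, 1136520, 1509466,
   214123, 791924, 714840, 1383459, 1579746, 441504, 1157681, 1254232, 856492, 733740, 1004808,
   943145, 1121624, 1688680, 1442546, 583912, 1353632, 1753178, 1070195, 1249626, 352492, 721644,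
   1614179, 442778, 1148021, 924560, 879200, 378280, 793002, 285859, 1002064, 1258152, 1582700,
   189210, 1750280, 821429, 989730, 1055915, 1709736, 846370, 583723, 419664, 1326353, 109473,
   404208, 1392881, 545524, 1620514, 855148, 1693713, 1521800, 460971, 476504, 125034, 738857,
   1059443, 408464, 56602, 1677858, 146538, 460131, 1074857, 837032, 206955, 1716393, 843024,
   691299, 377202, 643636, 723289, 1583449, 1084314, 1382192, 1317106, 281946, 1606892, 924714,
   1517089, 84721, 944720, 1251152, 985873, 1411473, 427252, 956592, 741475, 1618092, 855337,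
   714952, 181657, 1713992, 1718801, 405685, 677488, 1409716, 547225, 418138, 480928, 1136240,
   920178, 695331, 284851, 1443505, 217763, 707784, 152817, 1579179, 681513, 680491, 1455496,
   810082, 623532, 929096, 473130, 975520, 984172, 330484, 1369368, 1716778, 404523, 537460,
   350448, 874888, 842912, 481306, 50421, 1219792, 1152368, 723681, 1741859, 1395737, 993825,
   218722, 354144, 829808, 543851, 1747032, 584416, 1118635, 1586284, 1420552, 81249, 530229,
   1681512, 1254953, 209762, 158298, 974946, 439348, 1060185, 1118453, 993608, 117649, 1326241,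
   1737953, 920241, 1117291, 107436, 1661128, 739865, 117425, 1708378, 813162, 954548, 988204,
   1061557, 408912, 727832, 813841, 1171793, 401653, 1005704, 735840, 841904, 1217776, 396634,
   52122, 354851, 727083, 1517320, 384034, 1134707, 1155952, 952721, 1656361, 999530, 1608355,
   1153712, 125713, 1325233, 109361, 203098, 1249451, 1656648, 1354136, 380072, 1091440, 281267,
   546420, 348404, 743176, 1260112, 1743056, 1251992, 1443729, 550697, 1317274, 822066, 1712683,
   1320564, 854133, 1717072, 989520, 481432, 1644384, 1587985, 1336993, 1652777, 676081, 822626,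
   46508, 437528, 1716904, 845992, 443632, 1260049, 1655129, 737625, 1681953, 1446298, 288610,
   1150058, 59563, 1328243, 539252, 1718864, 1615712, 387240, 694512, 944657, 84889, 475482,
   1055642, 202594, 549675, 1581804, 950964, 1517768, 677768, 481040, 1154384, 1418144, 701344,
   649761, 1444954, 1512994, 1153586, 153202, 1063538, 872564, 1255240, 649544, 452368, 1416464,
   477008, 1745688, 727384, 415128, 1420384, 1382304, 1000552, 924336, 1450736, 703521, 173985,
   942249, 854441, 1084083]

lemma check : total ords = 2 ^ 177147 - 1 := by decide +kernel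

lemma total_bit (L : ℕ) : ∀ l, (total l).testBit L = true → ∃ o, (cover o 11).testBit L = true := by
  intro l
  induction l with
  | nil => intro h; simp [total] at h
  | cons o l ih =>
    intro h
    rw [total, Nat.testBit_or, Bool.or_eq_true] at h
    rcases h with h | h
    · exact ⟨o, h⟩
    · exact ih h

lemma step_bit (o k L : ℕ) (h : (cover o (k + 1)).testBit L = true) :
    ∃ p, p < 3 ∧ good o k p = true ∧ p * 3 ^ k ≤ L ∧ (cover o k).testBit (L - p * 3 ^ k) = true := by
  rw [cover, Nat.testBit_or, Nat.testBit_or, Bool.or_eq_true, Bool.or_eq_true] at h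
  rcases h with h | h | h
  · split_ifs at h with hg
    · exact ⟨0, by omega, hg, by omega, by simpa using h⟩
    · simp at h
  · split_ifs at h with hg
    · rw [Nat.testBit_shiftLeft, Bool.and_eq_true, decide_eq_true_eq] at h
      exact ⟨1, by omega, hg, by omega, by simpa using h.2⟩
    · simp at h
  · split_ifs at h with hg
    · rw [Nat.testBit_shiftLeft, Bool.and_eq_true, decide_eq_true_eq] at h
      exact ⟨2, by omega, hg, h.1, h.2⟩
    · simp at h

lemma bit_lt (o : ℕ) : ∀ k L, (cover o k).testBit L = true → L < 3 ^ k ∧ pos o 0 ≠ pos o 1 := by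
  intro k
  induction k with
  | zero =>
    intro L h
    rw [cover] at h
    split_ifs at h with hp
    · simp at h
    · refine ⟨?_, hp⟩
      have := Nat.testBit_one_eq_true_iff_self_eq_zero.1 h
      omega
  | succ k ih =>
    intro L h
    obtain ⟨p, hp, -, h1, h2⟩ := step_bit o k L h
    have h3 := ih _ h2
    refine ⟨?_, h3.2⟩
    have h4 := h3.1
    rw [pow_succ]
    generalize 3 ^ k = T at *
    interval_cases p <;> omega

def idx (s : ℕ → ℕ) : ℕ → ℕ
  | 0 => 0
  | k + 1 => idx s k + s k * 3 ^ k

lemma idx_lt (s : ℕ → ℕ) (hs : ∀ k, s k < 3) : ∀ k, idx s k < 3 ^ k := by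
  intro k
  induction k with
  | zero => simp [idx]
  | succ k ih =>
    rw [idx, pow_succ]
    have := hs k
    generalize 3 ^ k = T at *
    generalize s k = q at *
    interval_cases q <;> omega

lemma bit_good (o : ℕ) (s : ℕ → ℕ) (hs : ∀ k, s k < 3) :
    ∀ k, (cover o k).testBit (idx s k) = true → ∀ j < k, good o j (s j) = true := by
  intro k
  induction k with
  | zero => intro _ j hj; omega
  | succ k ih =>
    intro h j hj
    obtain ⟨p, hp, hg, h1, h2⟩ := step_bit o k _ h
    have h3 := (bit_lt o _ _ h2).1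
    have h4 := idx_lt s hs k
    have h5 := hs k
    rw [idx] at h1 h2 h3
    have h6 : s k = p := by
      generalize 3 ^ k = T at *
      generalize s k = q at *
      interval_cases p <;> interval_cases q <;> omega
    rw [h6, Nat.add_sub_cancel] at h2
    by_cases hjk : j = k
    · rw [hjk, h6]; exact hg
    · exact ih h2 j (by omega)

lemma key (s : ℕ → ℕ) (hs : ∀ k, s k < 3) :
    ∃ o, pos o 0 ≠ pos o 1 ∧ ∀ j < 11, good o j (s j) = true := by
  have h1 : idx s 11 < 177147 := idx_lt s hs 11
  have h2 : (total ords).testBit (idx s 11) = true := by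
    rw [check, Nat.testBit_two_pow_sub_one]
    exact decide_eq_true h1
  obtain ⟨o, ho⟩ := total_bit _ _ h2
  exact ⟨o, (bit_lt o _ _ ho).2, bit_good o s hs 11 ho⟩

def sel (a b c : Bool) : ℕ := if b = c then 0 else if a = c then 1 else 2

def st (c d p : ℕ) : ℤ := if c < p then p + d else p

lemma place0 (x y z : ℤ) (hx : 0 ≤ x ∧ x ≤ 17) (hy : 0 ≤ y ∧ y ≤ 17) (hz : 0 ≤ z ∧ z ≤ 17)
    (a b : Bool) (h : (x < y ∧ x < z) ∨ (y < x ∧ z < x)) :
    ∃ w : ℤ, (|x - w| ≤ 10 ↔ a = true) ∧ (|y - w| ≤ 10 ↔ b = true) ∧ (|z - w| ≤ 10 ↔ b = true) := by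
  simp only [abs_le]
  cases a <;> cases b <;> simp only [Bool.false_eq_true, iff_false, iff_true]
  · exact ⟨100, by omega⟩
  · rcases h with h | h
    · exact ⟨x + 11, by omega⟩
    · exact ⟨x - 11, by omega⟩
  · rcases h with h | h
    · exact ⟨x - 10, by omega⟩
    · exact ⟨x + 10, by omega⟩
  · exact ⟨8, by omega⟩

lemma st_bd (c d p : ℕ) (hd : d ≤ 10) (hp : p < 8) : 0 ≤ st c d p ∧ st c d p ≤ 17 := by
  unfold st
  split_ifs <;> omega

lemma st_ext (c d x y z : ℕ) (h : ext x y z = true) :
    (st c d x < st c d y ∧ st c d x < st c d z) ∨ (st c d y < st c d x ∧ st c d z < st c d x) := by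
  simp only [ext, Bool.or_eq_true, Bool.and_eq_true, decide_eq_true_eq] at h
  unfold st
  split_ifs <;> omega

lemma place (o k c d : ℕ) (hd : d ≤ 10) (a b e : Bool) (h : good o k (sel a b e) = true) :
    ∃ w : ℤ, (|st c d (pos o (trN k 0)) - w| ≤ 10 ↔ a = true) ∧
      (|st c d (pos o (trN k 1)) - w| ≤ 10 ↔ b = true) ∧
      (|st c d (pos o (trN k 2)) - w| ≤ 10 ↔ e = true) := by
  have hb : ∀ v, 0 ≤ st c d (pos o v) ∧ st c d (pos o v) ≤ 17 :=
    fun v => st_bd c d _ hd (Nat.mod_lt _ (by norm_num))
  unfold sel at h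
  split_ifs at h with h1 h2
  · subst h1
    exact place0 _ _ _ (hb _) (hb _) (hb _) a b (st_ext c d _ _ _ (by simpa [good] using h))
  · subst h2
    obtain ⟨w, p1, p2, p3⟩ :=
      place0 _ _ _ (hb _) (hb _) (hb _) b a (st_ext c d _ _ _ (by simpa [good] using h))
    exact ⟨w, p2, p1, p3⟩
  · have h3 : a = b := by
      revert h1 h2
      cases a <;> cases b <;> cases e <;> simp
    subst h3
    obtain ⟨w, p1, p2, p3⟩ :=
      place0 _ _ _ (hb _) (hb _) (hb _) e a (st_ext c d _ _ _ (by simpa [good] using h))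
    exact ⟨w, p2, p3, p1⟩

lemma intrep (L : W → W → Bool) : ∃ I : W → ℤ,
    (|I (.inl 0) - I (.inl 1)| ≤ 10 ↔ L (.inl 0) (.inl 1) = true) ∧
    ∀ (u : Fin 7) (k : Fin 11), G0.Adj (.inl u) (.inr k) →
      (|I (.inl u) - I (.inr k)| ≤ 10 ↔ L (.inl u) (.inr k) = true) := by
  obtain ⟨M, hM⟩ : ∃ M : ℕ → ℕ → Bool, ∀ (u : Fin 7) (k : Fin 11),
      M u.val k.val = L (.inl u) (.inr k) :=
    ⟨fun x y => if h : x < 7 ∧ y < 11 then L (.inl ⟨x, h.1⟩) (.inr ⟨y, h.2⟩) else false,
      fun u k => by simp [u.isLt, k.isLt]⟩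
  obtain ⟨o, ho, hg⟩ := key (fun k => sel (M (trN k 0) k) (M (trN k 1) k) (M (trN k 2) k))
    (fun k => by
      unfold sel
      split_ifs <;> omega)
  obtain ⟨d, hd, hd'⟩ : ∃ d : ℕ, d ≤ 10 ∧
      (|st (min (pos o 0) (pos o 1)) d (pos o 0) - st (min (pos o 0) (pos o 1)) d (pos o 1)| ≤ 10 ↔
        L (.inl 0) (.inl 1) = true) := by
    have h0 : pos o 0 < 8 := Nat.mod_lt _ (by norm_num)
    have h1 : pos o 1 < 8 := Nat.mod_lt _ (by norm_num)
    cases L (.inl 0) (.inl 1)
    · refine ⟨10, le_rfl, ?_⟩
      simp only [abs_le, Bool.false_eq_true, iff_false]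
      unfold st
      split_ifs <;> omega
    · refine ⟨0, by omega, ?_⟩
      simp only [abs_le, iff_true]
      unfold st
      split_ifs <;> omega
  choose w hw using fun k : Fin 11 =>
    place o k (min (pos o 0) (pos o 1)) d hd _ _ _ (hg k k.isLt)
  refine ⟨Sum.elim (fun u => st (min (pos o 0) (pos o 1)) d (pos o u.val)) w, hd', ?_⟩
  intro u k h
  have h' : (trN k 0 = u.val ∨ trN k 1 = u.val) ∨ trN k 2 = u.val := by
    simpa [G0, adjB] using h
  obtain ⟨w0, w1, w2⟩ := hw k
  rw [← hM]
  simp only [Sum.elim_inl, Sum.elim_inr]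
  rcases h' with (h' | h') | h'
  · rw [← h']; exact w0
  · rw [← h']; exact w1
  · rw [← h']; exact w2

lemma tot : TotalWUI G0 := by
  intro l
  obtain ⟨I, h01, hI⟩ := intrep (fun u v => if h : G0.Adj u v then l ⟨s(u, v), h⟩ else false)
  have cast : ∀ a b : ℤ, |(a : ℝ) - b| ≤ 10 ↔ |a - b| ≤ 10 := fun a b => by
    constructor <;> intro h <;> exact_mod_cast h
  have sw : ∀ (u v : W) (h : G0.Adj u v),
      (|I v - I u| ≤ 10 ↔ l ⟨s(v, u), h.symm⟩ = true) →
        (|I u - I v| ≤ 10 ↔ l ⟨s(u, v), h⟩ = true) := by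
    intro u v h h'
    have e : (⟨s(u, v), h⟩ : G0.edgeSet) = ⟨s(v, u), h.symm⟩ := Subtype.ext Sym2.eq_swap
    rw [e, abs_sub_comm]
    exact h'
  have a01 : G0.Adj (.inl 0) (.inl 1) := by decide
  rw [dif_pos a01] at h01
  have hb : ∀ (u : Fin 7) (k : Fin 11) (h : G0.Adj (.inl u) (.inr k)),
      |I (.inl u) - I (.inr k)| ≤ 10 ↔ l ⟨s(.inl u, .inr k), h⟩ = true := by
    intro u k h
    have := hI u k h
    rwa [dif_pos h] at this
  refine ⟨fun v => I v, 10, by norm_num, fun u v h => ?_⟩
  rw [cast]
  rcases u with u | k <;> rcases v with v | j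
  · have hc : ∀ u v : Fin 7, G0.Adj (.inl u) (.inl v) → (u = 0 ∧ v = 1) ∨ (u = 1 ∧ v = 0) := by
      decide
    rcases hc u v h with ⟨rfl, rfl⟩ | ⟨rfl, rfl⟩
    · exact h01
    · exact sw _ _ h h01
  · exact hb u j h
  · exact sw _ _ h (hb v k h.symm)
  · exact absurd h (by simp [G0, adjB])

lemma edges : G0.edgeSet.ncard = 34 := by
  have h1 := G0.sum_degrees_eq_twice_card_edges
  have h2 : ∑ v, G0.degree v = 68 := by decide +kernel
  rw [← G0.coe_edgeFinset, Set.ncard_coe_finset]
  omega

theorem result :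
    ∃ (V : Type) (_ : Fintype V) (G : SimpleGraph V),
      2 ≤ Fintype.card V ∧ TotalWUI G ∧ 2 * Fintype.card V ≤ G.edgeSet.ncard + 2 := by
  refine ⟨W, inferInstance, G0, by simp, tot, ?_⟩
  rw [edges]
  simp

end Pool.Agent.Results.MP_f51a03_co.Counter
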